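import Pool.Agent.helper61.DP.SpecC
import Pool.Agent.helper61.DP.Base

/-!
# Project dp, module RWP: crossing parity of paths
-/

set_option autoImplicit false

namespace DP

/-- one step crosses the half line above `g` -/
def RWP_st (g a b : V) : Bool :=
  decide (a.1 = g.1 ∧ b.1 = g.1 + 1 ∧ g.2 < a.2) || decide (b.1 = g.1 ∧ a.1 = g.1 + 1 ∧ g.2 < b.2)

theorem RWP_nil (g : V) : upCross g [] = 0 := rfl

theorem RWP_one (g a : V) : upCross g [a] = 0 := rfl

theorem RWP_cons (g a b : V) (l : List V) :
    upCross g (a :: b :: l) = (if RWP_st g a b = true then 1 else 0) + upCross g (b :: l) := by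
  unfold upCross
  rw [List.tail_cons, List.zip_cons_cons, List.tail_cons, List.filter_cons]
  by_cases h : RWP_st g a b = true
  · rw [if_pos h]
    have h' : (decide ((a, b).1.1 = g.1 ∧ (a, b).2.1 = g.1 + 1 ∧ g.2 < (a, b).1.2) ||
      decide ((a, b).2.1 = g.1 ∧ (a, b).1.1 = g.1 + 1 ∧ g.2 < (a, b).2.2)) = true := h
    rw [if_pos h', List.length_cons]
    omega
  · rw [if_neg h]
    have h' : ¬ (decide ((a, b).1.1 = g.1 ∧ (a, b).2.1 = g.1 + 1 ∧ g.2 < (a, b).1.2) ||
      decide ((a, b).2.1 = g.1 ∧ (a, b).1.1 = g.1 + 1 ∧ g.2 < (a, b).2.2)) = true := h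
    rw [if_neg h', zero_add]

theorem RWP_parity (l : List V) (g u v : V) (h1 : l.head? = some u) (h2 : l.getLast? = some v)
    (h3 : l.IsChain Adj) (h4 : ∀ w ∈ l, g.2 < w.2) :
    (upCross g l + i01 (u.1 ≤ g.1) + i01 (v.1 ≤ g.1)) % 2 = 0 := by
  induction l generalizing u with
  | nil => simp at h1
  | cons a l ih =>
    cases l with
    | nil =>
      simp only [List.head?_cons, Option.some.injEq, List.getLast?_singleton] at h1 h2
      subst h1 h2
      rw [RWP_one]
      omega
    | cons b l =>
      simp only [List.head?_cons, Option.some.injEq] at h1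
      subst h1
      rw [List.getLast?_cons_cons] at h2
      rw [List.isChain_cons_cons] at h3
      have ih' := ih b rfl h2 h3.2 fun w hw => h4 w (List.mem_cons_of_mem _ hw)
      have ha := h4 a (by simp)
      have hb := h4 b (by simp)
      rw [RWP_cons]
      have hadj := (adj_iff.1 h3.1).1
      have key : ((if RWP_st g a b = true then 1 else 0) + i01 (a.1 ≤ g.1) + i01 (b.1 ≤ g.1)) % 2 =
          0 := by
        unfold i01 RWP_st
        simp only [Bool.or_eq_true, decide_eq_true_eq]
        split_ifs <;> omega
      omega

theorem RWP_away (l : List V) (g : V) (h : ∀ w ∈ l, ¬ (w.1 = g.1 ∧ g.2 < w.2)) :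
    upCross g l = 0 := by
  induction l with
  | nil => rfl
  | cons a l ih =>
    cases l with
    | nil => rfl
    | cons b l =>
      rw [RWP_cons, ih fun w hw => h w (List.mem_cons_of_mem _ hw)]
      have ha := h a (by simp)
      have hb := h b (by simp)
      have : ¬ RWP_st g a b = true := by
        unfold RWP_st
        simp only [Bool.or_eq_true, decide_eq_true_eq]
        rintro (⟨e1, _, e3⟩ | ⟨e1, _, e3⟩)
        · exact ha ⟨e1, e3⟩
        · exact hb ⟨e1, e3⟩
      rw [if_neg this]

theorem RWP_append (W : Set V) (l l' : List V) (g u v w : V) (h : IsPath W l u v)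
    (h' : IsPath W l' v w) :
    IsPath W (l ++ l'.tail) u w ∧ upCross g (l ++ l'.tail) = upCross g l + upCross g l' := by
  induction l generalizing u with
  | nil => exact absurd rfl h.ne_nil
  | cons a l ih =>
    cases l with
    | nil =>
      have e1 : a = u := by have := h.1; simpa using this
      have e2 : a = v := by have := h.2.1; simpa using this
      subst e1
      subst e2
      cases l' with
      | nil => exact absurd rfl h'.ne_nil
      | cons b l' =>
        have e3 : b = a := by have := h'.1; simpa using this
        subst e3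
        rw [List.tail_cons, List.singleton_append, RWP_one, zero_add]
        exact ⟨h', rfl⟩
    | cons b l =>
      have e1 : a = u := by have := h.1; simpa using this
      subst e1
      obtain ⟨-, k2, k3, k4⟩ := h
      rw [List.getLast?_cons_cons] at k2
      rw [List.isChain_cons_cons] at k3
      have hb : IsPath W (b :: l) b v :=
        ⟨rfl, k2, k3.2, fun z hz => k4 z (List.mem_cons_of_mem _ hz)⟩
      obtain ⟨i1, i2⟩ := ih b hb
      refine ⟨?_, ?_⟩
      · rw [List.cons_append]
        exact i1.cons k3.1 (k4 a (by simp))
      · rw [List.cons_append, List.cons_append, RWP_cons, RWP_cons, ← List.cons_append, i2]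
        omega

/-- Crossing parity of paths: above `g`, away from the half line above `g`, concatenation. -/
theorem RWP : RWP_stmt := ⟨RWP_parity, RWP_away, RWP_append⟩

end DP
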