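import Pool.Agent.helper96.DP.API
import Pool.Agent.helper95.DP.Fin

/-!
# Project dp, module BRUS: telescoped Russo formula for an increasing event and uniform noise
-/

set_option autoImplicit false

namespace DP

open MeasureTheory

/-- For an increasing event the discrete derivative is the indicator of pivotality. -/
theorem Brusso_dv {F : Set (V → Bool)} (hF : Mon true F) (v : V) :
    dv v (ind F) = ind (Piv {v} F) := by
  funext b
  have hup : Function.update b v false ∈ F → Function.update b v true ∈ F := by
    refine hF _ _ fun u hu => ?_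
    by_cases h : u = v
    · subst h; simp
    · rw [Function.update_of_ne h] at hu ⊢
      exact hu
  have key : ∀ b' : V → Bool, (∀ w, w ∉ ({v} : Set V) → b' w = b w) →
      b' = Function.update b v (b' v) := by
    intro b' hb'
    funext w
    by_cases h : w = v
    · subst h; simp
    · rw [Function.update_of_ne h]
      exact hb' w h
  have hpiv : b ∈ Piv {v} F ↔ Function.update b v true ∈ F ∧ Function.update b v false ∉ F := by
    constructor
    · rintro ⟨b', b'', hb, h1, h2⟩
      have e1 := key b' fun w hw => (hb w hw).1
      have e2 := key b'' fun w hw => (hb w hw).2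
      rw [e1] at h1
      rw [e2] at h2
      cases h3 : b' v
      · rw [h3] at h1
        cases h4 : b'' v
        · rw [h4] at h2; exact absurd h1 h2
        · rw [h4] at h2; exact absurd (hup h1) h2
      · rw [h3] at h1
        cases h4 : b'' v
        · rw [h4] at h2; exact ⟨h1, h2⟩
        · rw [h4] at h2; exact absurd h1 h2
    · rintro ⟨h1, h2⟩
      refine ⟨_, _, fun w hw => ⟨?_, ?_⟩, h1, h2⟩
      · exact Function.update_of_ne hw _ _
      · exact Function.update_of_ne hw _ _
  show ind F (Function.update b v true) - ind F (Function.update b v false) = _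
  by_cases h : b ∈ Piv {v} F
  · rw [ind_of_mem h, ind_of_mem (hpiv.1 h).1, ind_of_notMem (hpiv.1 h).2]
    ring
  · rw [ind_of_notMem h]
    by_cases h1 : Function.update b v false ∈ F
    · rw [ind_of_mem h1, ind_of_mem (hup h1)]
      ring
    · have h2 : Function.update b v true ∉ F := fun h2 => h (hpiv.2 ⟨h2, h1⟩)
      rw [ind_of_notMem h1, ind_of_notMem h2]
      ring

theorem Brusso_dep {Λ : Finset V} {F : Set (V → Bool)} (hd : Dep F (Λ : Set V)) (hF : Mon true F)
    (v : V) : Dep (Piv {v} F) (Λ : Set V) := by
  have h1 : LF Λ (dv v (ind F)) := (hd.lf.dv' v).mono (Finset.erase_subset _ _)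
  rw [Brusso_dv hF v] at h1
  intro b b' hb
  have h2 := h1 b b' hb
  by_cases h : b ∈ Piv {v} F
  · rw [ind_of_mem h] at h2
    refine ⟨fun _ => ?_, fun _ => h⟩
    by_contra h'
    rw [ind_of_notMem h'] at h2
    norm_num at h2
  · rw [ind_of_notMem h] at h2
    refine ⟨fun h' => absurd h' h, fun h' => ?_⟩
    rw [ind_of_mem h'] at h2
    norm_num at h2

/-- Telescoped Russo formula for an increasing event and uniform noise. -/
theorem Brusso (hanti : Banti_stmt) : Brusso_stmt := by
  classical
  rintro Λ F s t ⟨Λ', hΛ', hd'⟩ hF hs hst ht
  have hd : Dep F (Λ : Set V) := hd'.mono hΛ'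
  have hlf := hd.lf
  have hpt : Profile fun _ : V => t := fun v => ⟨hs.trans hst, ht⟩
  have key : ∀ S : Finset V, (t - s) * ∑ v ∈ S, Q (fun _ => t) (Piv {v} F) (Piv {v} F) ≤
      4 * (bf (fun _ => s) (ind F) (ind F) -
        bf (fun v => if v ∈ S then t else s) (ind F) (ind F)) := by
    intro S
    induction S using Finset.induction_on with
    | empty => simp
    | insert v S hv ih =>
      rw [Finset.sum_insert hv, mul_add]
      set ρ : V → ℝ := fun v => if v ∈ S then t else s with hρ
      have hprof : Profile ρ := by
        intro u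
        simp only [hρ]
        split_ifs
        · exact ⟨hs.trans hst, ht⟩
        · exact ⟨hs, hst.trans ht⟩
      have hup : (fun u => if u ∈ insert v S then t else s) = Function.update ρ v t := by
        funext u
        by_cases hu : u = v
        · subst hu; simp
        · rw [Function.update_of_ne hu]
          simp [hρ, hu]
      have hdiff := bf_diff ρ hlf hlf v t
      have hρv : ρ v = s := by simp [hρ, hv]
      rw [hρv, clip_of_mem (hs.trans hst) ht, clip_of_mem hs (hst.trans ht), Brusso_dv hF v] at hdiff
      have hpd := Brusso_dep hd hF v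
      have hQ := hanti ρ (fun _ => t) (Piv {v} F) (Λ : Set V) hprof hpt ⟨Λ, subset_rfl, hpd⟩
        (by
          intro u _
          simp only [hρ]
          split_ifs
          · exact le_rfl
          · exact hst)
      rw [Q_eq ρ hpd hpd] at hQ
      rw [hup]
      have h0 : 0 ≤ t - s := sub_nonneg.2 hst
      nlinarith [mul_le_mul_of_nonneg_left hQ h0]
  have h1 := key Λ
  have h2 : bf (fun v => if v ∈ Λ then t else s) (ind F) (ind F) = Q (fun _ => t) F F := by
    rw [Q_eq _ hd hd]
    exact bf_congr hlf hlf fun v hv => by simp [hv]
  have h3 : bf (fun _ => s) (ind F) (ind F) = Q (fun _ => s) F F := (Q_eq _ hd hd).symm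
  rw [h2, h3] at h1
  exact h1

end DP
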